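import Pool.Agent.Q124.MS.Core

set_option autoImplicit false

/-!
# Critical minors of counterexamples (MP_e6539c_co)

Every counterexample to the conjecture (a finite graph without isthmuses and without a Petersen
minor which is not the union of two cycles) has a minor which is again a counterexample and which
has all the following properties at the same time: it is simple of girth at least five, 3-connected
and internally 4-connected (for vertex separations and for edge cuts), it has at least eighteen
vertices of odd degree, its treewidth is at least five, its pathwidth is at least six, and no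
sequence of more than fourteen vertices can be listed in such a way that at each time at most five
of the listed vertices have neighbours which are not yet listed.

In particular the conjecture holds for all graphs (of unbounded treewidth and with any number of odd
vertices) which are glued along edge cuts with at most three edges and along at most three vertices
from pieces of treewidth at most four, of pathwidth at most five, with at most sixteen odd vertices,
or with long explorations.

A graph is given by the ends `s e`, `t e` of its edges `e`; loops and parallel edges are allowed.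
Deleted and contracted edges are kept as loops, and the set of vertices is kept: the statements on
minors do not count vertices all of whose edges are loops.
-/

namespace Pool.Agent.Results.MP_e6539c_co.CriticalMinors

open Finset

/-- the edge `e` joins `x` and `y` -/
def Joins {V E : Type} (s t : E → V) (e : E) (x y : V) : Prop :=
  (s e = x ∧ t e = y) ∨ (s e = y ∧ t e = x)

/-- `x` and `y` are different and joined by an edge -/
def Adj {V E : Type} (s t : E → V) (x y : V) : Prop := x ≠ y ∧ ∃ e, Joins s t e x y

/-- `x` has a neighbour -/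
def Proper {V E : Type} (s t : E → V) (x : V) : Prop := ∃ y, Adj s t x y

/-- the edges with exactly one end in `Z` -/
def cut {V E : Type} [DecidableEq V] [Fintype E] (s t : E → V) (Z : Finset V) : Finset E :=
  univ.filter (fun e => ¬ (s e ∈ Z ↔ t e ∈ Z))

/-- there is no isthmus: no set of vertices is left by exactly one edge -/
def NoIsthmus {V E : Type} [DecidableEq V] [Fintype E] (s t : E → V) : Prop :=
  ∀ Z : Finset V, (cut s t Z).card ≠ 1

/-- the simple graph of the adjacent pairs -/
def under {V E : Type} (s t : E → V) : SimpleGraph V where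
  Adj x y := Adj s t x y
  symm := ⟨fun _ _ h => ⟨h.1.symm, h.2.imp fun _ he => he.elim Or.inr Or.inl⟩⟩
  loopless := ⟨fun _ h => h.1 rfl⟩

/-- the Petersen graph is a minor: there are disjoint connected sets of vertices, one for each
two-element subset of `{0, 1, 2, 3, 4}`, and the sets for disjoint subsets are adjacent -/
def HasPetersenMinor {V E : Type} (s t : E → V) : Prop :=
  ∃ B : {p : Finset (Fin 5) // p.card = 2} → Set V,
    (∀ i, ((under s t).induce (B i)).Connected) ∧
    (∀ i j, i ≠ j → Disjoint (B i) (B j)) ∧
    (∀ i j : {p : Finset (Fin 5) // p.card = 2}, Disjoint i.1 j.1 →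
      ∃ x ∈ B i, ∃ y ∈ B j, Adj s t x y)

/-- the set of edges `C` is a cycle: all degrees are even, where a loop counts twice -/
def IsCycle {V E : Type} [DecidableEq V] (s t : E → V) (C : Finset E) : Prop :=
  ∀ v, Even (∑ e ∈ C, ((if s e = v then 1 else 0) + (if t e = v then 1 else 0)))

/-- the set of all edges is the union of two cycles -/
def TwoCycles {V E : Type} [DecidableEq V] [Fintype E] [DecidableEq E] (s t : E → V) : Prop :=
  ∃ C₁ C₂ : Finset E, IsCycle s t C₁ ∧ IsCycle s t C₂ ∧ C₁ ∪ C₂ = univ

/-- minors: edges are deleted or contracted, one by one, and kept as loops (when `e` is contracted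
the end `d e` is replaced by the end `c e` everywhere) -/
inductive IsMinor {V E : Type} [DecidableEq V] [DecidableEq E] (s t : E → V) :
    (E → V) → (E → V) → Prop
  | refl : IsMinor s t s t
  | delete (c d : E → V) (e : E) : IsMinor s t c d →
      IsMinor s t c (fun x => if x = e then c x else d x)
  | contract (c d : E → V) (e : E) : IsMinor s t c d →
      IsMinor s t (fun x => if c x = d e then c e else c x) (fun x => if d x = d e then c e else d x)

/-- `T` is a tree with a bag for each node: every edge has both ends in a bag, and the bags with a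
given vertex form a subtree -/
def IsTreeDecomposition {V E ι : Type} (s t : E → V) (T : SimpleGraph ι)
    (bag : ι → Finset V) : Prop :=
  T.IsTree ∧ (∀ e, ∃ i, s e ∈ bag i ∧ t e ∈ bag i) ∧
    ∀ (i j : ι) (p : T.Walk i j), p.IsPath → ∀ k ∈ p.support, ∀ v, v ∈ bag i → v ∈ bag j →
      v ∈ bag k

/-- a path decomposition: every edge has both ends in one of the bags `X 0, X 1, ...`, and the bags
with a given vertex are consecutive -/
def IsPathDecomposition {V E : Type} [DecidableEq V] (s t : E → V) (X : ℕ → Finset V) : Prop :=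
  (∀ e, ∃ i, s e ∈ X i ∧ t e ∈ X i) ∧ ∀ i j k, i ≤ j → j ≤ k → X i ∩ X k ⊆ X j

/-- the listed vertices with a neighbour which is not listed -/
def border {V E : Type} (s t : E → V) (l : List V) : Set V := {x | x ∈ l ∧ ∃ y, y ∉ l ∧ Adj s t x y}

/-- `X`, `Y`, `S` is a partition of the set of vertices and no edge joins `X` and `Y` -/
structure Separation {V E : Type} (s t : E → V) (X Y S : Finset V) : Prop where
  xy : Disjoint X Y
  xs : Disjoint X S
  ys : Disjoint Y S
  all : ∀ v, v ∈ X ∨ v ∈ Y ∨ v ∈ S
  sep : ∀ e x y, x ∈ X → y ∈ Y → ¬ Joins s t e x y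

/-- the properties of the critical minors -/
structure Critical {V E : Type} [Fintype V] [DecidableEq V] [Fintype E] [DecidableEq E]
    (s t : E → V) : Prop where
  /-- there is no isthmus -/
  noIsthmus : NoIsthmus s t
  /-- the edge set is not the union of two cycles -/
  notTwo : ¬ TwoCycles s t
  /-- no parallel edges, apart from loops -/
  noPar : ∀ e e' x y, x ≠ y → Joins s t e x y → Joins s t e' x y → e = e'
  /-- no triangles -/
  noTri : ∀ x y z, Adj s t x y → Adj s t y z → ¬ Adj s t z x
  /-- no quadrilaterals -/
  noQuad : ∀ x y z w, x ≠ z → y ≠ w → Adj s t x y → Adj s t y z → Adj s t z w → ¬ Adj s t w x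
  /-- edge cuts have at least three edges -/
  cut3 : ∀ (Z : Finset V) (x y : V), x ∈ Z → y ∉ Z → Proper s t x → Proper s t y →
    3 ≤ (cut s t Z).card
  /-- edge cuts with at least two vertices on each side have at least four edges -/
  cut4 : ∀ (Z : Finset V) (x x' y y' : V), x ∈ Z → x' ∈ Z → x ≠ x' → y ∉ Z → y' ∉ Z → y ≠ y' →
    Proper s t x → Proper s t x' → Proper s t y → Proper s t y' → 4 ≤ (cut s t Z).card
  /-- at least three vertices are needed to separate two vertices -/
  sep3 : ∀ (X Y S : Finset V), Separation s t X Y S → ∀ x y, x ∈ X → y ∈ Y → Proper s t x →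
    Proper s t y → 3 ≤ S.card
  /-- at least four vertices are needed to separate two vertices from two vertices -/
  sep4 : ∀ (X Y S : Finset V), Separation s t X Y S → ∀ x x' y y', x ∈ X → x' ∈ X → x ≠ x' →
    y ∈ Y → y' ∈ Y → y ≠ y' → Proper s t x → Proper s t x' → Proper s t y → Proper s t y' →
    4 ≤ S.card
  /-- at least eighteen vertices have odd degree -/
  odd : 18 ≤ (univ.filter (fun v => Odd (∑ e : E, ((if s e = v then 1 else 0) +
    (if t e = v then 1 else 0))))).card
  /-- the treewidth is at least five: each tree decomposition has a bag with six vertices -/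
  treewidth : ∀ (ι : Type) [Fintype ι] (T : SimpleGraph ι) (bag : ι → Finset V),
    IsTreeDecomposition s t T bag → ∃ i, 6 ≤ (bag i).card
  /-- the pathwidth is at least six: each path decomposition has a bag with seven vertices -/
  pathwidth : ∀ X : ℕ → Finset V, IsPathDecomposition s t X → ∃ i, 7 ≤ (X i).card
  /-- explorations: if different vertices are listed one by one, and at each time at most five of
  the listed vertices have neighbours which are not yet listed, then at most fourteen vertices are
  listed; there are at most ten, four, two vertices if at the end there are at most four, three, two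
  vertices with neighbours which are not listed -/
  explore : ∀ l : List V, l.Nodup → (∀ x ∈ l, Proper s t x) →
    (∀ k ≤ l.length, (border s t (l.take k)).ncard ≤ 5) →
    l.length ≤ 14 ∧ ((border s t l).ncard ≤ 4 → l.length ≤ 10) ∧
      ((border s t l).ncard ≤ 3 → l.length ≤ 4) ∧ ((border s t l).ncard ≤ 2 → l.length ≤ 2)

/-! ### Translations -/

section
variable {V E : Type} [Fintype V] [DecidableEq V] [Fintype E] [DecidableEq E] {s t : E → V}

theorem proper_iff {x : V} : Proper s t x ↔ TH676.T4.Nis s t x := by
  constructor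
  · rintro ⟨y, hne, e, h⟩
    exact (Q124.MS.nis_of_JV h hne).1
  · rintro ⟨e, hne, h⟩
    rcases h with h | h
    · exact ⟨t e, fun h1 => hne (h.trans h1), e, Or.inl ⟨h, rfl⟩⟩
    · exact ⟨s e, fun h1 => hne (h1.symm.trans h.symm), e, Or.inr ⟨rfl, h⟩⟩

theorem two_of_nz (h : TH499.TF.NZ s t) : TwoCycles s t := by
  obtain ⟨f, hf, hd⟩ := h
  have h01 : ∀ a : ZMod 2, a ≠ 0 → a = 1 := by decide
  have key : ∀ g : E → ZMod 2, (∀ v, ∑ e, ((if s e = v then g e else 0) +
      (if t e = v then g e else 0)) = 0) → IsCycle s t (univ.filter (fun e => g e ≠ 0)) := by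
    intro g hg v
    rw [← ZMod.natCast_eq_zero_iff_even]
    refine Eq.trans ?_ (hg v)
    rw [sum_filter]
    push_cast
    refine sum_congr rfl fun e _ => ?_
    by_cases h1 : g e = 0
    · rw [if_neg (not_not.mpr h1)]
      split_ifs <;> simp [h1]
    · rw [if_pos h1]
      split_ifs <;> simp [h01 _ h1]
  refine ⟨univ.filter (fun e => (f e).1 ≠ 0), univ.filter (fun e => (f e).2 ≠ 0),
    key (fun e => (f e).1) ?_, key (fun e => (f e).2) ?_, ?_⟩
  · intro v
    have h := congrArg Prod.fst (hd v)
    unfold TH499.TF.dv TH499.TF.jn at h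
    rw [Prod.fst_sum] at h
    refine Eq.trans (sum_congr rfl fun e _ => ?_) h
    rw [Prod.fst_add]
    congr 1 <;> split_ifs <;> rfl
  · intro v
    have h := congrArg Prod.snd (hd v)
    unfold TH499.TF.dv TH499.TF.jn at h
    rw [Prod.snd_sum] at h
    refine Eq.trans (sum_congr rfl fun e _ => ?_) h
    rw [Prod.snd_add]
    congr 1 <;> split_ifs <;> rfl
  · ext e
    simp only [mem_union, mem_filter, mem_univ, true_and, iff_true]
    by_contra hcon
    push Not at hcon
    exact hf e (Prod.ext hcon.1 hcon.2)

theorem nz_of_two (h : TwoCycles s t) : TH499.TF.NZ s t := by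
  obtain ⟨C, D, hC, hD, hu⟩ := h
  have key : ∀ C : Finset E, IsCycle s t C → ∀ v, ∑ e, ((if s e = v then
      (if e ∈ C then (1 : ZMod 2) else 0) else 0) + (if t e = v then (if e ∈ C then 1 else 0)
      else 0)) = 0 := by
    intro C hC v
    have h1 := hC v
    rw [← ZMod.natCast_eq_zero_iff_even] at h1
    push_cast at h1
    refine Eq.trans ?_ h1
    rw [← sum_subset (subset_univ C)]
    · refine sum_congr rfl fun e he => ?_
      simp [he]
    · intro e _ he
      simp [he]
  refine ⟨fun e => (if e ∈ C then 1 else 0, if e ∈ D then 1 else 0), fun e => ?_, fun v => ?_⟩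
  · have he : e ∈ C ∪ D := by rw [hu]; exact mem_univ _
    intro h0
    have h1 := congrArg Prod.fst h0
    have h2 := congrArg Prod.snd h0
    rcases mem_union.mp he with h3 | h3
    · simp [h3] at h1
    · simp [h3] at h2
  · unfold TH499.TF.dv TH499.TF.jn
    refine Prod.ext ?_ ?_
    · rw [Prod.fst_sum]
      refine Eq.trans (sum_congr rfl fun e _ => ?_) (key C hC v)
      rw [Prod.fst_add]
      by_cases h1 : s e = v <;> by_cases h2 : t e = v <;> simp [h1, h2]
    · rw [Prod.snd_sum]
      refine Eq.trans (sum_congr rfl fun e _ => ?_) (key D hD v)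
      rw [Prod.snd_add]
      by_cases h1 : s e = v <;> by_cases h2 : t e = v <;> simp [h1, h2]

theorem pet_of_pm (h : TH499.TF.PM s t) : HasPetersenMinor s t := by
  classical
  obtain ⟨S, h1, h2, h3⟩ := h
  have hne : ∀ i, (S i).Nonempty := by
    intro i
    obtain ⟨j, hj⟩ : ∃ j : {p : Finset (Fin 5) // p.card = 2}, Disjoint i.1 j.1 := by
      revert i; decide
    obtain ⟨e, x, y, hx, _⟩ := h3 i j hj
    exact ⟨x, hx⟩
  refine ⟨fun i => (S i : Set V), ?_, ?_, ?_⟩
  · intro i
    obtain ⟨x0, hx0⟩ := hne i
    rw [SimpleGraph.connected_iff_exists_forall_reachable]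
    refine ⟨⟨x0, hx0⟩, ?_⟩
    by_contra hcon
    push Not at hcon
    obtain ⟨⟨y0, hy0⟩, hy1⟩ := hcon
    obtain ⟨e, a, b, ha, hb, hbA, hj⟩ := h1 i
      ((S i).filter (fun x => ∃ h : x ∈ (S i : Set V),
        ((under s t).induce (S i : Set V)).Reachable ⟨x0, hx0⟩ ⟨x, h⟩))
      (filter_subset _ _) ⟨x0, mem_filter.mpr ⟨hx0, hx0, SimpleGraph.Reachable.refl _⟩⟩
      (fun h => by
        have h4 : y0 ∈ (S i).filter (fun x => ∃ h : x ∈ (S i : Set V),
            ((under s t).induce (S i : Set V)).Reachable ⟨x0, hx0⟩ ⟨x, h⟩) := by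
          rw [h]; exact hy0
        obtain ⟨_, _, h5⟩ := mem_filter.mp h4
        exact hy1 h5)
    apply hbA
    rw [mem_filter] at ha ⊢
    obtain ⟨ha1, ha2, ha3⟩ := ha
    refine ⟨hb, hb, ha3.trans ?_⟩
    apply SimpleGraph.Adj.reachable
    have hab : a ≠ b := fun h => hbA (mem_filter.mpr ⟨hb, h ▸ ⟨ha2, ha3⟩⟩)
    exact ⟨hab, e, hj⟩
  · intro i j hij
    exact disjoint_coe.mpr (h2 i j hij)
  · intro i j hij
    obtain ⟨e, x, y, hx, hy, hj⟩ := h3 i j hij
    refine ⟨x, hx, y, hy, ?_, e, hj⟩
    rintro rfl
    exact disjoint_left.mp (h2 i j (TH499.TF.pr_ne i j hij)) hx hy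

theorem mc_minor (s t : E → V) : TH462.T4.MC (fun c d => IsMinor s t c d) where
  del := fun c d e h _ => by
    have h1 := IsMinor.delete c d e h
    have h2 : TH462.T4.lp c d {e} = fun x => if x = e then c x else d x := by
      funext x
      unfold TH462.T4.lp
      simp only [mem_singleton]
    rw [h2]
    exact h1
  con := fun c d e h _ => IsMinor.contract c d e h

theorem odd_eq : univ.filter (fun v => Odd (∑ e : E, ((if s e = v then 1 else 0) +
    (if t e = v then 1 else 0)))) = TH362.TF.odd s t univ := by
  unfold TH362.TF.odd TH362.TF.deg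
  rfl

theorem odd_even : Even (TH362.TF.odd s t univ).card := by
  have h1 : Even (∑ v, TH362.TF.deg s t univ v) := by
    unfold TH362.TF.deg
    rw [sum_comm]
    refine Finset.even_sum _ fun e _ => ?_
    rw [sum_add_distrib]
    simp
  have h2 : (∑ v, TH362.TF.deg s t univ v) % 2 = (TH362.TF.odd s t univ).card % 2 := by
    rw [sum_nat_mod]
    congr 1
    unfold TH362.TF.odd
    rw [card_filter]
    refine sum_congr rfl fun v _ => ?_
    by_cases h : Odd (TH362.TF.deg s t univ v)
    · rw [if_pos h]; exact Nat.odd_iff.mp h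
    · rw [if_neg h]
      exact Nat.even_iff.mp (Nat.not_odd_iff_even.mp h)
  rw [Nat.even_iff] at h1 ⊢
  omega

theorem list_expl (hM : TH462.T4.MinCx s t) (l : List V) (hl : l.Nodup)
    (hp : ∀ x ∈ l, Proper s t x) (hb : ∀ k ≤ l.length, (border s t (l.take k)).ncard ≤ 5) :
    ∀ k ≤ l.length, Q124.MS.Expl s t (l.take k).toFinset := by
  have _ := hM
  intro k
  induction k with
  | zero =>
    intro _
    simp only [List.take_zero, List.toFinset_nil]
    exact Q124.MS.Expl.nil
  | succ k ih =>
    intro hk
    have hkl : k < l.length := by omega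
    have h1 := ih (by omega)
    have ht : (l.take (k + 1)).toFinset = insert (l[k]) (l.take k).toFinset := by
      rw [List.take_succ_eq_append_getElem hkl]
      ext z
      simp only [List.mem_toFinset, List.mem_append, List.mem_singleton, mem_insert]
      exact or_comm
    have hb' := hb (k + 1) hk
    rw [ht]
    refine Q124.MS.Expl.add _ _ h1 ?_ (proper_iff.mp (hp _ (List.getElem_mem hkl))) ?_
    · intro hmem
      rw [List.mem_toFinset] at hmem
      obtain ⟨i, hi, hi2⟩ := List.getElem_of_mem hmem
      rw [List.getElem_take] at hi2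
      have := (List.Nodup.getElem_inj_iff hl).mp hi2
      rw [List.length_take] at hi
      omega
    · rw [← ht]
      refine le_trans (le_of_eq ?_) hb'
      rw [← Set.ncard_coe_finset]
      congr 1
      ext x
      rw [mem_coe, Q124.MS.mem_bdy]
      unfold border Adj
      simp only [Set.mem_ofPred_eq, List.mem_toFinset]
      constructor
      · rintro ⟨h2, e, y, hj, h3, h4⟩
        exact ⟨h2, y, h4, h3.symm, e, hj⟩
      · rintro ⟨h2, y, h4, h3, e, hj⟩
        exact ⟨h2, e, y, hj, h3.symm, h4⟩

theorem border_eq (l : List V) : (border s t l).ncard = (Q124.MS.bdy s t l.toFinset).card := by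
  rw [← Set.ncard_coe_finset]
  congr 1
  ext x
  rw [mem_coe, Q124.MS.mem_bdy]
  unfold border Adj
  simp only [Set.mem_ofPred_eq, List.mem_toFinset]
  constructor
  · rintro ⟨h2, y, h4, h3, e, hj⟩
    exact ⟨h2, e, y, hj, h3.symm, h4⟩
  · rintro ⟨h2, e, y, hj, h3, h4⟩
    exact ⟨h2, y, h4, h3.symm, e, hj⟩

theorem part_of {X Y S : Finset V} (h : Separation s t X Y S) : Q124.MS.Part s t X Y S :=
  ⟨h.xy, h.xs, h.ys, h.all, fun e => ⟨fun h1 => h.sep e _ _ h1.1 h1.2 (Or.inl ⟨rfl, rfl⟩),
    fun h1 => h.sep e _ _ h1.2 h1.1 (Or.inr ⟨rfl, rfl⟩)⟩⟩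

theorem critical_of (hM : TH462.T4.MinCx s t) (hp : ¬ TH499.TF.PM s t) : Critical s t where
  noIsthmus := Q124.MS.br_iff.mp hM.br
  notTwo := fun h => hM.nf (Q124.MS.flow_iff.mpr (nz_of_two h))
  noPar := fun e e' x y hxy h h' => TH169.P5.smp V E s t hM e e' x y hxy h h'
  noTri := fun x y z h1 h2 h3 => TH169.P5.tri V E s t hM x y z h1.1 h3.1.symm h2.1 h1.2 h2.2 h3.2
  noQuad := fun x y z w hxz hyw h1 h2 h3 h4 =>
    TH169.P5.quad V E s t hM x y z w h1.1 hxz h4.1.symm h2.1 hyw h3.1 h1.2 h2.2 h3.2 h4.2
  cut3 := fun Z x y hx hy nx ny => TH676.T4.cut3 hM hx hy (proper_iff.mp nx) (proper_iff.mp ny)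
  cut4 := fun Z x x' y y' hx hx' hxx hy hy' hyy nx nx' ny ny' =>
    TH676.T4.cut4 hM hx hx' hxx hy hy' hyy (proper_iff.mp nx) (proper_iff.mp nx')
      (proper_iff.mp ny) (proper_iff.mp ny')
  sep3 := fun X Y S hP x y hx hy nx ny => by
    by_contra hlt
    exact Q124.MS.sep2 hM (part_of hP) (by omega) hx hy (proper_iff.mp nx) (proper_iff.mp ny)
  sep4 := fun X Y S hP x x' y y' hx hx' hxx hy hy' hyy nx nx' ny ny' => by
    by_contra hlt
    exact Q124.MS.sep3 hM (part_of hP) (by omega) hx hx' hxx hy hy' hyy (proper_iff.mp nx)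
      (proper_iff.mp nx') (proper_iff.mp ny) (proper_iff.mp ny')
  odd := by
    rw [odd_eq]
    have h1 := Q124.MS.odd17 hM hp
    have h2 := odd_even (s := s) (t := t)
    rw [Nat.even_iff] at h2
    omega
  treewidth := fun ι _ T bag hT => by
    by_contra hcon
    push Not at hcon
    exact Q124.MS.no_tw hM hp (TH499.TF.HasTD.of_tree hT.1 hT.2.2 hT.2.1
      (fun i => Nat.lt_succ_iff.mp (hcon i)))
  pathwidth := fun X hX => by
    by_contra hcon
    push Not at hcon
    exact Q124.MS.no_pw hM hp ⟨X, hX.1, hX.2, fun i => Nat.lt_succ_iff.mp (hcon i)⟩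
  explore := fun l hl hpr hb => by
    have h1 := list_expl hM l hl hpr hb l.length le_rfl
    rw [List.take_length] at h1
    have h2 := h1.small hM hp
    rw [List.toFinset_card_of_nodup hl, ← border_eq] at h2
    exact h2

end

/-- Let `(s, t)` be a finite graph, with loops and parallel edges allowed, which has no isthmus and no
Petersen minor. Then its edge set is the union of two cycles, or it has a minor with all the
properties listed in `Critical`. -/
theorem result (V E : Type) [Fintype V] [DecidableEq V] [Fintype E] [DecidableEq E] (s t : E → V)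
    (hI : NoIsthmus s t) (hP : ¬ HasPetersenMinor s t) :
    TwoCycles s t ∨ ∃ c d : E → V, IsMinor s t c d ∧ Critical c d := by
  by_cases h : TwoCycles s t
  · exact Or.inl h
  · right
    obtain ⟨c, d, h1, h2, h3⟩ := Q124.MS.exists_core (mc_minor s t) IsMinor.refl hI
      (fun h1 => h (two_of_nz h1)) (fun h1 => hP (pet_of_pm h1))
    exact ⟨c, d, h1, critical_of h2 h3⟩

end Pool.Agent.Results.MP_e6539c_co.CriticalMinors
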