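import Mathlib
import Pool.Agent.Q253.M8.Fin

set_option autoImplicit false

/-!
# Covering Petersen-minor-free graphs with matching number at most eight by two cycles
(MP_e6539c_co)

Let `G` be a finite multigraph without isthmuses and without a Petersen graph minor, in which no
nine edges are pairwise disjoint.  Then `G` is the union of two cycles.  There is no condition on
the number of vertices or on the degrees.

Proof.  The class is closed under contraction and deletion of edges.  A minimal counterexample is
simple, has girth at least five and degrees at least three (starting files), and more than sixteen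
vertices of odd degree (starting file `SixteenOddVertices`), so at least 18 vertices; it is
connected and has no cut vertex.  It has nine disjoint edges: otherwise the theorem of Tutte and
Berge gives a set `A` of vertices and at least `|A| + 2` odd components of `G - A` with
`|A| + (c₁ + 2 c₂) ≤ 8`, where `c₀`, `c₁`, `c₂` are the numbers of the odd components with one,
three, at least five vertices.  Each pair of vertices of `A` has at most one common neighbour, and
the components with one or three vertices contain at least `3 c₀ + 2 c₁` vertices with two
neighbours in `A` (with multiplicity), so `3 c₀ + 2 c₁ ≤ |A| (|A| - 1) / 2`.  Hence `|A| ≤ 1`, a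
contradiction.
-/

namespace Pool.Agent.Results.MP_e6539c_co.MatchingNumberEight

variable {V E : Type}

/-- The vertices `x` and `y` are joined by an edge different from `e`. -/
def AdjWithout (src dst : E → V) (e : E) (x y : V) : Prop :=
  ∃ e', e' ≠ e ∧ ((src e' = x ∧ dst e' = y) ∨ (src e' = y ∧ dst e' = x))

/-- The edge `e` is an isthmus: its ends are not joined by a walk that avoids `e`. -/
def IsIsthmus (src dst : E → V) (e : E) : Prop :=
  ¬ Relation.ReflTransGen (AdjWithout src dst e) (src e) (dst e)

/-- `C` is a cycle (a disjoint union of circuits): every vertex has even degree in `(V, C)`; a loop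
counts twice. -/
def IsCycle [DecidableEq V] (src dst : E → V) (C : Finset E) : Prop :=
  ∀ v : V, Even ((C.filter (fun e => src e = v)).card + (C.filter (fun e => dst e = v)).card)

/-- The vertices of the Petersen graph: the `2`-element subsets of a `5`-element set; two of them
are adjacent if they are disjoint. -/
def PetVertex : Type := {s : Finset (Fin 5) // s.card = 2}

/-- The vertices `x` and `y` lie in `B` and are joined by an edge. -/
def AdjIn (src dst : E → V) (B : Set V) (x y : V) : Prop :=
  x ∈ B ∧ y ∈ B ∧ ∃ e, (src e = x ∧ dst e = y) ∨ (src e = y ∧ dst e = x)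

/-- The multigraph has a Petersen graph minor: there are nonempty disjoint vertex sets `B s`, one
for each vertex `s` of the Petersen graph, such that any two vertices of `B s` are joined by a walk
in `B s`, and such that an edge joins `B s` and `B t` if `s` and `t` are adjacent. -/
def HasPetersenMinor (src dst : E → V) : Prop :=
  ∃ B : PetVertex → Set V, (∀ s, (B s).Nonempty) ∧
    (∀ s t, s ≠ t → Disjoint (B s) (B t)) ∧
    (∀ s, ∀ x ∈ B s, ∀ y ∈ B s, Relation.ReflTransGen (AdjIn src dst (B s)) x y) ∧
    ∀ s t : PetVertex, Disjoint s.1 t.1 →
      ∃ e, (src e ∈ B s ∧ dst e ∈ B t) ∨ (src e ∈ B t ∧ dst e ∈ B s)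

/-- No nine edges (not loops) are pairwise disjoint. -/
def MatchingNumberLeEight (src dst : E → V) : Prop :=
  ∀ M : Finset E, (∀ e ∈ M, src e ≠ dst e) →
    (∀ e ∈ M, ∀ f ∈ M, e ≠ f → src e ≠ src f ∧ src e ≠ dst f ∧ dst e ≠ src f ∧ dst e ≠ dst f) →
    M.card ≤ 8

theorem result :
    ∀ (V E : Type) [Fintype V] [DecidableEq V] [Fintype E] [DecidableEq E] (src dst : E → V),
      MatchingNumberLeEight src dst → (∀ e, ¬ IsIsthmus src dst e) →
      ¬ HasPetersenMinor src dst →
      ∃ C₁ C₂ : Finset E, IsCycle src dst C₁ ∧ IsCycle src dst C₂ ∧ C₁ ∪ C₂ = Finset.univ := by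
  intro V E _ _ _ _ src dst hm hb hp
  exact Pool.Agent.Q253.M8.two_cycles src dst hm hb hp

end Pool.Agent.Results.MP_e6539c_co.MatchingNumberEight
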