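import Mathlib
import Pool.Agent.Q253.M8.Fin
import Pool.Agent.Q253.P3.Main

set_option autoImplicit false

/-!
# Covering Petersen-minor-free graphs with 3-path cover number at most five by two cycles
(MP_e6539c_co)

Let `G` be a finite multigraph without isthmuses and without a Petersen graph minor, in which some
five vertices meet all paths with three vertices: the rest has only components with at most two
vertices (the 3-path vertex cover number is at most five).  Then `G` is the union of two cycles.
There is no condition on the number of vertices or on the degrees.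

Proof.  The class is closed under contraction and deletion of edges.  A minimal counterexample is
simple, has girth at least five and degrees at least three (starting files).  A vertex outside of
the five vertices has at most one neighbour outside, so it has two neighbours among the five; two of
the five have at most one common neighbour.  So at most `5 + 10` vertices have a neighbour, and the
starting theorem on at most sixteen vertices of odd degree applies.
-/

namespace Pool.Agent.Results.MP_e6539c_co.ThreePathCoverFive

variable {V E : Type}

/-- The vertices `x` and `y` are joined by an edge different from `e`. -/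
def AdjWithout (src dst : E → V) (e : E) (x y : V) : Prop :=
  ∃ e', e' ≠ e ∧ ((src e' = x ∧ dst e' = y) ∨ (src e' = y ∧ dst e' = x))

/-- The edge `e` is an isthmus: its ends are not joined by a walk that avoids `e`. -/
def IsIsthmus (src dst : E → V) (e : E) : Prop :=
  ¬ Relation.ReflTransGen (AdjWithout src dst e) (src e) (dst e)

/-- `C` is a cycle (a disjoint union of circuits): every vertex has even degree in `(V, C)`; a loop
counts twice. -/
def IsCycle [DecidableEq V] (src dst : E → V) (C : Finset E) : Prop :=
  ∀ v : V, Even ((C.filter (fun e => src e = v)).card + (C.filter (fun e => dst e = v)).card)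

/-- The vertices of the Petersen graph: the `2`-element subsets of a `5`-element set; two of them
are adjacent if they are disjoint. -/
def PetVertex : Type := {s : Finset (Fin 5) // s.card = 2}

/-- The vertices `x` and `y` lie in `B` and are joined by an edge. -/
def AdjIn (src dst : E → V) (B : Set V) (x y : V) : Prop :=
  x ∈ B ∧ y ∈ B ∧ ∃ e, (src e = x ∧ dst e = y) ∨ (src e = y ∧ dst e = x)

/-- The multigraph has a Petersen graph minor: there are nonempty disjoint vertex sets `B s`, one
for each vertex `s` of the Petersen graph, such that any two vertices of `B s` are joined by a walk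
in `B s`, and such that an edge joins `B s` and `B t` if `s` and `t` are adjacent. -/
def HasPetersenMinor (src dst : E → V) : Prop :=
  ∃ B : PetVertex → Set V, (∀ s, (B s).Nonempty) ∧
    (∀ s t, s ≠ t → Disjoint (B s) (B t)) ∧
    (∀ s, ∀ x ∈ B s, ∀ y ∈ B s, Relation.ReflTransGen (AdjIn src dst (B s)) x y) ∧
    ∀ s t : PetVertex, Disjoint s.1 t.1 →
      ∃ e, (src e ∈ B s ∧ dst e ∈ B t) ∨ (src e ∈ B t ∧ dst e ∈ B s)

/-- The vertices `x` and `y` are the ends of an edge. -/
def Joined (src dst : E → V) (x y : V) : Prop :=
  ∃ e, (src e = x ∧ dst e = y) ∨ (src e = y ∧ dst e = x)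

/-- Some set of at most five vertices meets all paths `a b c` with three vertices. -/
def ThreePathCoverLeFive (src dst : E → V) : Prop :=
  ∃ X : Finset V, X.card ≤ 5 ∧ ∀ a b c : V, a ≠ b → b ≠ c → a ≠ c → Joined src dst a b →
    Joined src dst b c → a ∈ X ∨ b ∈ X ∨ c ∈ X

theorem result :
    ∀ (V E : Type) [Fintype V] [DecidableEq V] [Fintype E] [DecidableEq E] (src dst : E → V),
      ThreePathCoverLeFive src dst → (∀ e, ¬ IsIsthmus src dst e) →
      ¬ HasPetersenMinor src dst →
      ∃ C₁ C₂ : Finset E, IsCycle src dst C₁ ∧ IsCycle src dst C₂ ∧ C₁ ∪ C₂ = Finset.univ := by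
  intro V E _ _ _ _ src dst hm hb hp
  have hc : Pool.Agent.Q253.P3.Cl3 src dst := by
    obtain ⟨X, hX, h⟩ := hm
    refine ⟨X, hX, fun a b c e f ha hb hc hab hbc h1 h2 => ?_⟩
    by_contra hac
    rcases h a b c hab hbc hac ⟨e, h1⟩ ⟨f, h2⟩ with h3 | h3 | h3
    · exact ha h3
    · exact hb h3
    · exact hc h3
  exact Pool.Agent.Q253.M8.cycles_of_flow (Pool.Agent.Q253.P3.flow_of_p3 src dst
    (Pool.Agent.TH443.P5.no_one_cut hb) (fun h => hp (Pool.Agent.TH443.P5.pet_minor h)) hc)

end Pool.Agent.Results.MP_e6539c_co.ThreePathCoverFive
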