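import Mathlib
import Pool.Agent.Q253.VC.Main

set_option autoImplicit false

/-!
# Covering Petersen-minor-free graphs with a vertex cover of nine vertices by two cycles
(MP_e6539c_co)

Let `G` be a finite multigraph without isthmuses and without a Petersen graph minor, and let `X` be
a set of at most nine vertices such that every edge which is not a loop has an end in `X`.  Then `G`
is the union of two cycles.  There is no condition on the number of vertices or on the degrees.

Proof.  The class is closed under contraction and deletion of edges.  A minimal counterexample is
simple, has girth at least five and degrees at least three (starting files), and more than sixteen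
vertices of odd degree (starting file `SixteenOddVertices`).  Each vertex `x` of `X` has `a` odd
neighbours and `b` even neighbours outside of `X` and `c` neighbours in `X` with
`2 a + 3 b + c ≤ 8`, since the second neighbours are different.  Double counting shows that there
are exactly nine odd vertices in `X` and nine outside, that the latter have degree three, and that
each vertex of `X` has exactly three neighbours outside of `X` and an even number inside.  So `G` is
the union of a cubic bipartite graph, which has a 3-edge-colouring by König's theorem, and a cycle
in `X`; it has a nowhere-zero flow over `ℤ₂ × ℤ₂`.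
-/

namespace Pool.Agent.Results.MP_e6539c_co.VertexCoverNine

variable {V E : Type}

/-- The vertices `x` and `y` are joined by an edge different from `e`. -/
def AdjWithout (src dst : E → V) (e : E) (x y : V) : Prop :=
  ∃ e', e' ≠ e ∧ ((src e' = x ∧ dst e' = y) ∨ (src e' = y ∧ dst e' = x))

/-- The edge `e` is an isthmus: its ends are not joined by a walk that avoids `e`. -/
def IsIsthmus (src dst : E → V) (e : E) : Prop :=
  ¬ Relation.ReflTransGen (AdjWithout src dst e) (src e) (dst e)

/-- `C` is a cycle (a disjoint union of circuits): every vertex has even degree in `(V, C)`; a loop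
counts twice. -/
def IsCycle [DecidableEq V] (src dst : E → V) (C : Finset E) : Prop :=
  ∀ v : V, Even ((C.filter (fun e => src e = v)).card + (C.filter (fun e => dst e = v)).card)

/-- The vertices of the Petersen graph: the `2`-element subsets of a `5`-element set; two of them
are adjacent if they are disjoint. -/
def PetVertex : Type := {s : Finset (Fin 5) // s.card = 2}

/-- The vertices `x` and `y` lie in `B` and are joined by an edge. -/
def AdjIn (src dst : E → V) (B : Set V) (x y : V) : Prop :=
  x ∈ B ∧ y ∈ B ∧ ∃ e, (src e = x ∧ dst e = y) ∨ (src e = y ∧ dst e = x)

/-- The multigraph has a Petersen graph minor: there are nonempty disjoint vertex sets `B s`, one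
for each vertex `s` of the Petersen graph, such that any two vertices of `B s` are joined by a walk
in `B s`, and such that an edge joins `B s` and `B t` if `s` and `t` are adjacent. -/
def HasPetersenMinor (src dst : E → V) : Prop :=
  ∃ B : PetVertex → Set V, (∀ s, (B s).Nonempty) ∧
    (∀ s t, s ≠ t → Disjoint (B s) (B t)) ∧
    (∀ s, ∀ x ∈ B s, ∀ y ∈ B s, Relation.ReflTransGen (AdjIn src dst (B s)) x y) ∧
    ∀ s t : PetVertex, Disjoint s.1 t.1 →
      ∃ e, (src e ∈ B s ∧ dst e ∈ B t) ∨ (src e ∈ B t ∧ dst e ∈ B s)

theorem result :
    ∀ (V E : Type) [Fintype V] [DecidableEq V] [Fintype E] [DecidableEq E] (src dst : E → V)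
      (X : Finset V), X.card ≤ 9 → (∀ e, src e ≠ dst e → src e ∈ X ∨ dst e ∈ X) →
      (∀ e, ¬ IsIsthmus src dst e) → ¬ HasPetersenMinor src dst →
      ∃ C₁ C₂ : Finset E, IsCycle src dst C₁ ∧ IsCycle src dst C₂ ∧ C₁ ∪ C₂ = Finset.univ := by
  intro V E _ _ _ _ src dst X hX hc hb hp
  exact Pool.Agent.Q253.VC.two_cycles src dst X hX hc hb hp

end Pool.Agent.Results.MP_e6539c_co.VertexCoverNine
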